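import Mathlib
import Pool.Agent.W917.Flip.CardCase

/-!
# MP_8fa3e4_lc, Q2: nontrivial automorphisms of the power set modulo the countable sets
-/

namespace Pool.Agent.Results.MP_8fa3e4_lc.CountableIdeal

open Cardinal Pool.Agent.H65R3.Forc Pool.Agent.W917.Flip

/-- For all infinite cardinals `χ < κ` there is a nonempty forcing notion `P`, every condition of
which forces that `χ`, the successor cardinal of `χ`, and `κ` are still cardinals, and that the
quotient of the power set of `κ` by the ideal of the sets having an injection into `χ` has a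
nontrivial automorphism. The case `χ = ℵ₀` concerns the ideal of the countable subsets of an
arbitrary uncountable cardinal `κ`. -/
theorem result (χ κ : Cardinal.{0}) (hχ : ℵ₀ ≤ χ) (hκ : χ < κ) :
    ∃ (P : Type) (_ : Preorder P), Nonempty P ∧ ∀ p : P,
      p ∈ StaysCardinal P χ ∧ p ∈ StaysCardinal P (Order.succ χ) ∧ p ∈ StaysCardinal P κ ∧
        p ∈ HasNontrivialAut (K κ) (InjInto (K χ)) := by
  have hSm : ∀ φ : K κ → Set (Pool.Agent.H631R2.Cond (K κ)),
      InjInto (K χ) φ = Cov (fun S => #S ≤ χ) φ := by
    intro φ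
    have := injInto_eq (Y := K χ) (by rw [mk_K]; exact hχ) φ
    rwa [mk_K] at this
  refine ⟨Pool.Agent.H631R2.Cond (K κ), inferInstance, ⟨⟨∅, by simp⟩⟩,
    fun p => ⟨?_, ?_, ?_, ?_⟩⟩
  · exact staysCardinal hχ p
  · exact staysCardinal (hχ.trans (Order.le_succ χ)) p
  · exact staysCardinal (hχ.trans hκ.le) p
  · exact mem_fex_of_mem (TT (K κ)) (down_fand
      (down_fand (down_fand (down_fall fun _ => down_fex _) (down_fall fun _ => down_fex _))
        (down_fall fun _ => down_fall fun _ => down_fall fun _ => down_fall fun _ =>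
          down_fimp _ _))
      (down_fnot _))
      ⟨isAut_TT (ideal_card hχ) hSm p,
        card_nontrivial hχ (by rw [mk_K]; exact not_le.2 hκ) hSm p⟩

end Pool.Agent.Results.MP_8fa3e4_lc.CountableIdeal
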